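import Mathlib
import Pool.Agent.H.MP_ee50b4_pr.A

namespace Pool.Agent.Results.MP_ee50b4_pr.NoCutoff

open Finset Filter Topology Pool.Agent.H.MP_8d2225_pr Pool.Agent.H.MP_ee50b4_pr

variable {n : ℕ} [NeZero n]

/-- uniform probability on a finite set -/
noncomputable def unifOn (S : Finset (ZMod n)) : ZMod n → ℝ :=
  fun x => if x ∈ S then 1 / (S.card : ℝ) else 0

/-- convolution power -/
noncomputable def cpow (μ : ZMod n → ℝ) : ℕ → ZMod n → ℝ
  | 0 => fun x => if x = 0 then 1 else 0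
  | t + 1 => fun x => ∑ y, cpow μ t y * μ (x - y)

/-- total variation distance of the convolution power to the uniform law -/
noncomputable def tvd (μ : ZMod n → ℝ) (t : ℕ) : ℝ := (1 / 2) * ∑ x, |cpow μ t x - 1 / (n : ℝ)|

/-- mixing time -/
noncomputable def Tmix (μ : ZMod n → ℝ) (ε : ℝ) : ℕ := sInf {t | tvd μ t ≤ ε}

/-- spectral gap -/
noncomputable def gap (μ : ZMod n → ℝ) : ℝ :=
  1 - ⨆ j : {j : ZMod n // j ≠ 0}, ‖∑ x, (μ x : ℂ) * ZMod.stdAddChar (j.1 * x)‖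

lemma cpow_eq (S : Finset (ZMod n)) (t : ℕ) : ∀ x, cpow (unifOn S) t x = (W 0 S ^ t) 0 x := by
  induction t with
  | zero => intro x; simp [cpow, Matrix.one_apply, eq_comm]
  | succ t ih =>
    intro x
    rw [pow_succ, Matrix.mul_apply, cpow]
    refine sum_congr rfl fun y _ => ?_
    rw [ih]
    simp [W, unifOn]

lemma tvd_eq (S : Finset (ZMod n)) (t : ℕ) : tvd (unifOn S) t =
    (1 / 2) * ∑ y, |(W 0 S ^ t) 0 y - 1 / (Fintype.card (ZMod n) : ℝ)| := by
  simp only [tvd, cpow_eq, ZMod.card]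

lemma gap_ge {L T : ℕ} {S : Finset (ZMod n)} (h : Nice L T S) : 2 / 5 ≤ gap (unifOn S) := by
  have : (⨆ j : {j : ZMod n // j ≠ 0}, ‖∑ x, (unifOn S x : ℂ) * ZMod.stdAddChar (j.1 * x)‖) ≤
      3 / 5 := by
    refine Real.iSup_le (fun j => ?_) (by norm_num)
    have h1 := h.chr (ZMod.stdAddChar.mulShift j.1) (ZMod.isPrimitive_stdAddChar n j.2)
    have hs : (0 : ℝ) < S.card := by exact_mod_cast h.ne.card_pos
    have e : ∑ x, (unifOn S x : ℂ) * ZMod.stdAddChar (j.1 * x) =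
        ((1 / (S.card : ℝ) : ℝ) : ℂ) * ∑ x ∈ S, ZMod.stdAddChar.mulShift j.1 x := by
      rw [mul_sum, ← sum_subset (subset_univ S)]
      · exact sum_congr rfl fun x hx => by simp [unifOn, hx]
      · intro x _ hx; simp [unifOn, hx]
    rw [e, norm_mul, Complex.norm_real, Real.norm_of_nonneg (by positivity), one_div,
      inv_mul_le_iff₀ hs]
    linarith
  unfold gap
  linarith

theorem result : ∃ (n : ℕ → ℕ) (_ : ∀ k, NeZero (n k)) (S : ∀ k, Finset (ZMod (n k))),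
    Tendsto n atTop atTop ∧
    (∀ k, 2 ≤ n k ∧ (S k).Nonempty ∧ (∀ x ∈ S k, -x ∈ S k) ∧
      ∀ (K : AddSubgroup (ZMod (n k))) (a : ZMod (n k)), (∀ x ∈ S k, x - a ∈ K) → K = ⊤) ∧
    Tendsto (fun k => (1 / gap (unifOn (S k))) / (Tmix (unifOn (S k)) (1 / 2) : ℝ)) atTop (𝓝 0) ∧
    ¬ ∀ ε ∈ Set.Ioo (0 : ℝ) (1 / 2), Tendsto (fun k =>
      (Tmix (unifOn (S k)) ε : ℝ) / Tmix (unifOn (S k)) (1 - ε)) atTop (𝓝 1) := by
  choose n i S h using fun k => pack (k + 2) (6 * (k + 2)) (by omega) (by omega)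
  have hn : ∀ k, k + 2 ≤ n k := fun k => by simpa using (h k).card
  have hb : ∀ k : ℕ, (1 : ℝ) / (9 * ((k + 2 : ℕ) : ℝ)) ≤ 5 / 9 := fun k => by
    rw [div_le_iff₀ (by positivity)]; push_cast; linarith [k.cast_nonneg (α := ℝ)]
  have lo : ∀ k, ∀ t ≤ 6 * (k + 2), (1 - 1 / (9 * ((k + 2 : ℕ) : ℝ))) ^ t - 1 / 100 ≤
      tvd (unifOn (S k)) t := fun k t ht => by rw [tvd_eq]; exact (h k).lo t ht
  have up : ∀ k t, tvd (unifOn (S k)) t ≤ (1 - 1 / (11 * ((k + 2 : ℕ) : ℝ))) ^ t +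
      (1 / (9 * ((k + 2 : ℕ) : ℝ))) ^ t := fun k t => by rw [tvd_eq]; exact (h k).up t
  refine ⟨n, i, S, tendsto_atTop_mono hn (tendsto_add_atTop_nat 2),
    fun k => ⟨by linarith [hn k], (h k).ne, (h k).symm, (h k).erg⟩, ?_, fun hc => ?_⟩
  · refine squeeze_zero (fun k => ?_) (fun k => ?_)
      (tendsto_one_div_atTop_nhds_zero_nat.comp (tendsto_add_atTop_nat 2))
    · have := gap_ge (h k)
      positivity
    · have a1 := gap_ge (h k)
      have a2 : (4 * ((k + 2 : ℕ) : ℝ)) ≤ Tmix (unifOn (S k)) (1 / 2) := by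
        exact_mod_cast half (by omega) (by positivity) (hb k) (lo k) (up k)
      have a3 : (0 : ℝ) < ((k + 2 : ℕ) : ℝ) := by positivity
      simp only [Function.comp]
      rw [div_div]
      refine one_div_le_one_div_of_le a3 ?_
      nlinarith
  · exact not_one (fun k => (times (by omega) (by positivity) (hb k) (lo k) (up k)).2)
      (hc (1 / 4) (by norm_num))

end Pool.Agent.Results.MP_ee50b4_pr.NoCutoff
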